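import Pool.Agent.Helper42.QD.Stmts

set_option autoImplicit false

namespace Pool.Agent.Helper17.QDX

open Pool.Agent.Helper42.QD Pool.Agent.Helper42.QD.VD

theorem st_C1 (hOM : ST_OM) (hC1A : ST_C1A) (hALK : ST_ALK1) (hEIG : ST_EIG) (hDIAG : ST_DIAG) :
    ST_C1 := by
  intro D k _ _ _ c h hh hnoI hsg R f hfix
  by_contra hf
  obtain ⟨oh, hoh⟩ := hOM D k c R h f hh hf hfix
  obtain ⟨x, B, g, hohP, hx, hvx, hB, hB', hg, hTy, hrel⟩ := hC1A D k c R h f oh hh hnoI hsg hf hfix hoh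
  set τ : D := c.T ^ (h : ℤ) with hτ
  have hτ0 : τ ≠ 0 := T_zpow_ne _
  have hvτ : c.v τ = h := v_T_zpow _
  set t : k ≃+* k := c.sg ^ h with ht
  have hrτ : ∀ y, c.P 0 y → c.r (τ * y * τ⁻¹) = t (c.r y) := by
    intro y hy
    have h1 := r_T_zpow (c := c) (h : ℤ) hy
    have h2 : c.sg ^ (h : ℤ) = c.sg ^ h := zpow_natCast _ _
    rw [h2] at h1
    exact h1
  have hPτ : ∀ {m : ℤ} {y : D}, c.P m y → c.P (m + h) (τ * y) := by
    intro m y hy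
    have h1 := P_mul (P_self (c := c) (x := τ)) hy
    rw [hvτ] at h1
    exact P_mono (by omega) h1
  have hPτ' : ∀ {m : ℤ} {y : D}, c.P (m + h) (τ * y) → c.P m y := by
    intro m y hy
    have h1 := P_of_mul_left hτ0 hy
    rw [hvτ] at h1
    exact P_mono (by omega) h1
  have hPconj : ∀ {m : ℤ} {y : D}, c.P m y → c.P m (τ * y * τ⁻¹) := fun hy => P_conj hτ0 hy
  have hxP : c.P (-h) x := Or.inr hvx.ge
  have hτx : c.P 0 (τ * x) := P_mono (by omega) (hPτ hxP)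
  have hτB : c.P 0 (τ * B) := P_mono (by omega) (hPτ hB)
  set xi := c.r (τ * x) with hxi
  set beta := c.r (τ * B) with hbeta
  have hxi0 : xi ≠ 0 := by
    apply r_ne_zero (mul_ne_zero hτ0 hx)
    rw [c.v_mul _ _ hτ0 hx, hvτ, hvx]
    omega
  have hbeta0 : beta ≠ 0 := by
    intro h0
    have h1 := (r_zero' hτB).1 h0
    exact hB' (hPτ' (P_mono (by omega) h1))
  -- residue of τ (B - b x b)
  have hres : ∀ b, c.P 0 b → c.P 0 (τ * (B - b * x * b)) ∧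
      c.r (τ * (B - b * x * b)) = beta - t (c.r b) * xi * c.r b := by
    intro b hb
    have e : τ * (B - b * x * b) = τ * B - (τ * b * τ⁻¹) * (τ * x) * b := by
      have e1 : (τ * b * τ⁻¹) * (τ * x) * b = τ * b * (τ⁻¹ * τ) * x * b := by noncomm_ring
      rw [e1, inv_mul_cancel₀ hτ0]
      noncomm_ring
    have h1 : c.P 0 ((τ * b * τ⁻¹) * (τ * x)) := P_mul' (hPconj hb) hτx (by omega)
    have h2 : c.P 0 ((τ * b * τ⁻¹) * (τ * x) * b) := P_mul' h1 hb (by omega)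
    rw [e]
    refine ⟨P_sub hτB h2, ?_⟩
    rw [r_sub hτB h2, c.r_mul _ _ h1 hb, c.r_mul _ _ (hPconj hb) hτx, hrτ b hb]
  have hcond : ∀ a : k, beta ≠ t a * xi * a → t (t a) * t xi * beta = t beta * xi * a := by
    intro a ha
    obtain ⟨b, hb, hba⟩ := c.r_surj a
    have hb0 : c.P 0 b := hb
    obtain ⟨h1, h2⟩ := hres b hb0
    have h3 : ¬ c.P (1 - h) (B - b * x * b) := by
      intro h4
      have h5 := (r_zero' h1).2 (P_mono (by omega) (hPτ h4))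
      rw [h2, hba, sub_eq_zero] at h5
      exact ha h5
    have h4 := hrel b hb0 h3
    have h5 : c.P 1 (τ * (τ * (b * x * B - B * x * b))) :=
      P_mono (by omega) (hPτ (hPτ h4))
    have e : τ * (τ * (b * x * B - B * x * b)) =
        (τ * (τ * b * τ⁻¹) * τ⁻¹) * (τ * (τ * x) * τ⁻¹) * (τ * B) -
          (τ * (τ * B) * τ⁻¹) * (τ * x) * b := by
      have e1 : (τ * (τ * b * τ⁻¹) * τ⁻¹) * (τ * (τ * x) * τ⁻¹) * (τ * B) =
          τ * τ * b * (τ⁻¹ * (τ⁻¹ * τ) * τ) * x * (τ⁻¹ * τ) * B := by noncomm_ring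
      have e2 : (τ * (τ * B) * τ⁻¹) * (τ * x) * b = τ * τ * B * (τ⁻¹ * τ) * x * b := by
        noncomm_ring
      rw [e1, e2]
      simp only [inv_mul_cancel₀ hτ0, mul_one]
      noncomm_ring
    rw [e] at h5
    have p1 : c.P 0 (τ * (τ * b * τ⁻¹) * τ⁻¹) := hPconj (hPconj hb0)
    have p2 : c.P 0 (τ * (τ * x) * τ⁻¹) := hPconj hτx
    have p3 : c.P 0 (τ * (τ * B) * τ⁻¹) := hPconj hτB
    have p4 : c.P 0 ((τ * (τ * b * τ⁻¹) * τ⁻¹) * (τ * (τ * x) * τ⁻¹)) := P_mul' p1 p2 (by omega)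
    have p5 : c.P 0 ((τ * (τ * B) * τ⁻¹) * (τ * x)) := P_mul' p3 hτx (by omega)
    have h6 := (r_congr (P_mul' p4 hτB (by omega)) (P_mul' p5 hb0 (by omega))).2 h5
    rw [c.r_mul _ _ p4 hτB, c.r_mul _ _ p1 p2, c.r_mul _ _ p5 hb0, c.r_mul _ _ p3 hτx,
      hrτ _ (hPconj hb0), hrτ _ hb0, hrτ _ hτx, hrτ _ hτB, hba] at h6
    exact h6
  obtain ⟨htt, ⟨z, z', hzz', hz, hz'⟩, hthird⟩ := hALK k t hsg xi beta hxi0 hbeta0 hcond
  obtain ⟨z1, hz1, hz1r⟩ := c.r_surj z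
  obtain ⟨z2, hz2, hz2r⟩ := c.r_surj z'
  have hz1P : c.P 0 z1 := hz1
  have hz2P : c.P 0 z2 := hz2
  have hne : ¬ c.P 1 (z1 - z2) := by
    intro h1
    have h2 := (r_congr hz1P hz2P).2 h1
    rw [hz1r, hz2r] at h2
    exact hzz' h2
  have hroot : ∀ w, c.P 0 w → t (c.r w) * xi * c.r w = beta →
      c.P (1 - h) (B + w * oh - w * x * w) := by
    intro w hw hwr
    obtain ⟨h1, h2⟩ := hres w hw
    rw [hwr, sub_self] at h2
    have h3 := (r_zero' h1).1 h2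
    have h4 : c.P (1 - h) (B - w * x * w) := hPτ' (P_mono (by omega) h3)
    have h5 : c.P (1 - h) (w * oh) := P_mul' hw hohP (by omega)
    have e : B + w * oh - w * x * w = (B - w * x * w) + w * oh := by abel
    rw [e]
    exact P_add h4 h5
  obtain ⟨g', hTy'⟩ := hEIG D k c R h oh x B z1 z2 g hh (P_mono (by omega) hohP) hxP hB hz1P hz2P
    hne (hroot z1 hz1P (by rw [hz1r]; exact hz)) (hroot z2 hz2P (by rw [hz2r]; exact hz')) hTy
  have hm0 : c.P (-h) (z1 * x) := P_mul' hz1P hxP (by omega)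
  have hm1 : c.P (-h) (z2 * x) := P_mul' hz2P hxP (by omega)
  have ha0 : t z * xi ≠ 0 := by
    intro h0
    rw [h0, zero_mul] at hz
    exact hbeta0 hz.symm
  obtain ⟨w, hw⟩ := hthird (t z * xi) ha0
  obtain ⟨ζ, hζ, hζr⟩ := c.r_surj w
  have hζP : c.P 0 ζ := hζ
  have hτm : c.P 0 (τ * (z1 * x)) := P_mono (by omega) (hPτ hm0)
  have hτmr : c.r (τ * (z1 * x)) = t z * xi := by
    have e : τ * (z1 * x) = (τ * z1 * τ⁻¹) * (τ * x) := by
      have e1 : (τ * z1 * τ⁻¹) * (τ * x) = τ * z1 * (τ⁻¹ * τ) * x := by noncomm_ring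
      rw [e1, inv_mul_cancel₀ hτ0, mul_one, mul_assoc]
    rw [e, c.r_mul _ _ (hPconj hz1P) hτx, hrτ _ hz1P, hz1r]
  have hinvr : ∀ y, c.P 0 y → c.P 0 (τ⁻¹ * y * τ) ∧ c.r (τ⁻¹ * y * τ) = t (c.r y) := by
    intro y hy
    have h1 : c.P 0 (τ⁻¹ * y * τ) := P_conj' hτ0 hy
    refine ⟨h1, ?_⟩
    have h2 := hrτ _ h1
    have e : τ * (τ⁻¹ * y * τ) * τ⁻¹ = y := by
      have e1 : τ * (τ⁻¹ * y * τ) * τ⁻¹ = (τ * τ⁻¹) * y * (τ * τ⁻¹) := by noncomm_ring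
      rw [e1, mul_inv_cancel₀ hτ0, one_mul, mul_one]
    rw [e] at h2
    rw [h2, htt]
  have hfin : c.P 1 ((z1 * x) * (τ * ζ) + (τ * ζ) * (z1 * x) - oh * (τ * ζ) + 1) := by
    have q1 := hinvr _ hτm
    have e1 : (z1 * x) * (τ * ζ) = (τ⁻¹ * (τ * (z1 * x)) * τ) * ζ := by
      have e1 : (τ⁻¹ * (τ * (z1 * x)) * τ) * ζ = (τ⁻¹ * τ) * (z1 * x) * τ * ζ := by noncomm_ring
      rw [e1, inv_mul_cancel₀ hτ0, one_mul]
      noncomm_ring
    have e2 : (τ * ζ) * (z1 * x) = (τ * ζ * τ⁻¹) * (τ * (z1 * x)) := by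
      have e1 : (τ * ζ * τ⁻¹) * (τ * (z1 * x)) = τ * ζ * (τ⁻¹ * τ) * (z1 * x) := by noncomm_ring
      rw [e1, inv_mul_cancel₀ hτ0, mul_one]
    have p1 : c.P 0 ((z1 * x) * (τ * ζ)) := by rw [e1]; exact P_mul' q1.1 hζP (by omega)
    have p2 : c.P 0 ((τ * ζ) * (z1 * x)) := by rw [e2]; exact P_mul' (hPconj hζP) hτm (by omega)
    have p3 : c.P h (τ * ζ) := P_mono (by omega) (hPτ hζP)
    have p4 : c.P 1 (oh * (τ * ζ)) := P_mul' hohP p3 (by omega)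
    have p5 : c.P 0 ((z1 * x) * (τ * ζ) + (τ * ζ) * (z1 * x)) := P_add p1 p2
    have p6 : c.P 1 ((z1 * x) * (τ * ζ) + (τ * ζ) * (z1 * x) + 1) := by
      rw [← r_zero' (P_add p5 P_one), c.r_add _ _ p5 P_one, c.r_add _ _ p1 p2, c.r_one, e1, e2,
        c.r_mul _ _ q1.1 hζP, c.r_mul _ _ (hPconj hζP) hτm, q1.2, hrτ _ hζP, hτmr, hζr]
      exact hw
    have e : (z1 * x) * (τ * ζ) + (τ * ζ) * (z1 * x) - oh * (τ * ζ) + 1 =
        ((z1 * x) * (τ * ζ) + (τ * ζ) * (z1 * x) + 1) - oh * (τ * ζ) := by abel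
    rw [e]
    exact P_sub p6 p4
  have hzero := hDIAG D k c R h oh (z1 * x) (z2 * x) (R.rho g' g) hh hoh hm0 hm1
    ⟨τ * ζ, P_mono (by omega) (hPτ hζP), hfin⟩ hTy'
  apply hg
  have h1 : R.rho g'⁻¹ (R.rho g' g) = g := by
    have h2 := congrArg (fun φ => φ g) (R.rho.map_mul g'⁻¹ g')
    simp only [inv_mul_cancel, map_one] at h2
    exact h2.symm
  rw [← h1, hzero, map_zero]

end Pool.Agent.Helper17.QDX
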